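import Pool.Agent.Helper47.RF.Core

/-!
# Project RF: basic calculus packets (all elementary)

Prove `theorem goal_C1 : Goal_C1` etc. in your own file.  The later goals may assume the earlier ones as
hypotheses (`theorem goal_C2 (h1 : Goal_C1) : Goal_C2`).
-/

namespace Pool.Agent.Helper47.RF

open Finset

/-- smoothness exponent `∞` -/
abbrev oo : WithTop ℕ∞ := ((⊤ : ℕ∞) : WithTop ℕ∞)

/-- C1 (0.8 h).  Closure properties of `Sm`.  For the last one: `fderiv f (r x) = r⁻¹ fderiv f x` by homogeneity, and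
`fderiv` of a `C^∞` function on the open set `{0}ᶜ` is `C^∞`. -/
def Goal_C1 : Prop :=
  (∀ c : ℝ, Sm (fun _ => c)) ∧
  (∀ f h, Sm f → Sm h → Sm (fun x => f x + h x)) ∧
  (∀ f h, Sm f → Sm h → Sm (fun x => f x - h x)) ∧
  (∀ f h, Sm f → Sm h → Sm (fun x => f x * h x)) ∧
  (∀ f, Sm f → Sm (fun x => - f x)) ∧
  (∀ (ι : Type) (s : Finset ι) (f : ι → HH → ℝ), (∀ a ∈ s, Sm (f a)) → Sm (fun x => ∑ a ∈ s, f a x)) ∧
  (∀ (f : HH → ℝ) (F : ℝ → ℝ) (U : Set ℝ), IsOpen U → ContDiffOn ℝ oo F U → Sm f →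
    (∀ x, x ≠ 0 → f x ∈ U) → Sm (fun x => F (f x))) ∧
  (∀ f i, Sm f → Sm (E i f)) ∧
  (∀ f w, Sm f → Sm (Ew w f))

/-- C2 (0.6 h).  `E i` is a derivation (at `x = 0` all terms vanish since `0 * qe i = 0`). -/
def Goal_C2 : Prop :=
  (∀ (i : Fin 3) (c : ℝ) (x : HH), E i (fun _ => c) x = 0) ∧
  (∀ i f h x, Sm f → Sm h → E i (fun y => f y + h y) x = E i f x + E i h x) ∧
  (∀ i f h x, Sm f → Sm h → E i (fun y => f y - h y) x = E i f x - E i h x) ∧
  (∀ i f x, E i (fun y => - f y) x = - E i f x) ∧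
  (∀ i f h x, Sm f → Sm h → E i (fun y => f y * h y) x = E i f x * h x + f x * E i h x) ∧
  (∀ i (c : ℝ) f x, Sm f → E i (fun y => c * f y) x = c * E i f x) ∧
  (∀ (ι : Type) (s : Finset ι) (f : ι → HH → ℝ) (i : Fin 3) (x : HH), (∀ a ∈ s, Sm (f a)) →
    E i (fun y => ∑ a ∈ s, f a y) x = ∑ a ∈ s, E i (f a) x) ∧
  (∀ (i : Fin 3) (f : HH → ℝ) (F : ℝ → ℝ) (F' : ℝ) (x : HH), Sm f → x ≠ 0 → HasDerivAt F F' (f x) →
    E i (fun y => F (f y)) x = F' * E i f x)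

/-- C3 (0.6 h).  Commutator.  `E i (E j f) x = D²f(x)(x e_i, x e_j) + Df(x)(x e_i e_j)`, symmetry of `D²f`, and
`e_i e_j - e_j e_i = 2 ∑ eps i j k e_k` (9 cases). -/
def Goal_C3 : Prop :=
  ∀ i j f x, Sm f → E i (E j f) x - E j (E i f) x = 2 * ∑ k, eps i j k * E k f x

/-- C4 (1 h).  `∫ E_i f = 0`.  A `Sm` function is bounded (compactness of the unit sphere, homogeneity), hence
integrable on the ball.  `x ↦ x * exp(s e_i) = x * (cos s + sin s e_i)` is a linear isometry of `ℍ`, so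
`∫_ball f(x exp(s e_i)) dx` is independent of `s`; differentiate at `s = 0` (dominated: `E_i f` is bounded). -/
def Goal_C4 : Prop :=
  (∀ f, Sm f → ∃ C, ∀ x, |f x| ≤ C + |f 0|) ∧
  (∀ f, Sm f → MeasureTheory.IntegrableOn f (Metric.ball (0 : HH) 1)) ∧
  (∀ i f, Sm f → integ (E i f) = 0) ∧
  (∀ i f h, Sm f → Sm h → integ (fun x => E i f x * h x) = - integ (fun x => f x * E i h x)) ∧
  integ (fun _ => 1) = 2 * Real.pi ^ 2

/-- C5 (1 h).  Maximum on the sphere.  Along `s ↦ x * (cos (|v| s) + sin (|v| s)/|v| * ∑ v_i e_i)` (or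
`x * exp (s ∑ v_i e_i)`) the first and second derivative of `f` at `s = 0` are `∑ v_i E_i f` and
`∑ v_i v_j E_i E_j f`. -/
def Goal_C5 : Prop :=
  (∀ f, Sm f → ∃ x, ‖x‖ = 1 ∧ ∀ y, y ≠ 0 → f y ≤ f x) ∧
  (∀ f x, Sm f → x ≠ 0 → (∀ y, y ≠ 0 → f y ≤ f x) →
    (∀ i, E i f x = 0) ∧ ∀ v : Fin 3 → ℝ, ∑ i, ∑ j, v i * v j * E i (E j f) x ≤ 0)

/-- C6 (0.8 h).  Determinant and inverse of a metric (Cramer: inverse = adjugate / det). -/
def Goal_C6 : Prop :=
  ∀ g : MF, IsMetric g → (∀ x, 0 < (g x).det) ∧ Sm (fun x => (g x).det) ∧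
    Sm (fun x => Real.sqrt (g x).det) ∧ (∀ i j, Sm (fun x => (g x)⁻¹ i j)) ∧
    (∀ x, g x * (g x)⁻¹ = 1) ∧ (∀ x i j, (g x)⁻¹ i j = (g x)⁻¹ j i) ∧
    (∀ i j k, Sm (GamL g i j k)) ∧ (∀ i j k, Sm (Gam g i j k)) ∧ (∀ i j k l, Sm (Rup g i j k l)) ∧
    (∀ i j k l, Sm (Rm g i j k l)) ∧ (∀ i j, Sm (Ric g i j)) ∧ Sm (Scal g)

/-- C7 (0.8 h).  Derivative along a curve of unit quaternions.  `w = c t * (star (c t) * w)`; the real part of
`star (c t) * w` contributes nothing by homogeneity (Euler), the imaginary part is `∑ fr_i qe i`.  (In fact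
`re (star (c t) * w) = 0` is not needed.) -/
def Goal_C7 : Prop :=
  (∀ f (c : ℝ → HH) (w : HH) (t : ℝ), Sm f → ‖c t‖ = 1 → HasDerivAt c w t →
    HasDerivAt (fun s => f (c s)) (∑ i, fr (c t) w i * E i f (c t)) t) ∧
  (∀ f (x v : HH), Sm f → x ≠ 0 → v.re = 0 →
    HasDerivAt (fun s : ℝ => f (x * NormedSpace.exp (s • v)))
      (v.imI * E 0 f x + v.imJ * E 1 f x + v.imK * E 2 f x) 0)

/-- C8 (1.2 h).  Rules for smooth families.  For products and compositions: induction on the length of the word,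
for all functions at the same time, with `E i (f h) = (E i f) h + f (E i h)`, `E i (F ∘ f) = (F' ∘ f) E i f`. -/
def Goal_C8 : Prop :=
  ∀ I : Set ℝ,
  (∀ c : ℝ → ℝ, ContinuousOn c I → SmFam I (fun t _ => c t)) ∧
  (∀ f h, SmFam I f → SmFam I h → SmFam I (fun t x => f t x + h t x)) ∧
  (∀ f h, SmFam I f → SmFam I h → SmFam I (fun t x => f t x - h t x)) ∧
  (∀ f h, SmFam I f → SmFam I h → SmFam I (fun t x => f t x * h t x)) ∧
  (∀ f, SmFam I f → SmFam I (fun t x => - f t x)) ∧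
  (∀ f i, SmFam I f → SmFam I (fun t => E i (f t))) ∧
  (∀ (f : ℝ → HH → ℝ) (F : ℝ → ℝ) (U : Set ℝ), IsOpen U → ContDiffOn ℝ oo F U → SmFam I f →
    (∀ t ∈ I, ∀ x, x ≠ 0 → f t x ∈ U) → SmFam I (fun t x => F (f t x))) ∧
  (∀ (ι : Type) (s : Finset ι) (f : ι → ℝ → HH → ℝ), (∀ a ∈ s, SmFam I (f a)) →
    SmFam I (fun t x => ∑ a ∈ s, f a t x))

/-- C9 (1.2 h).  Rules for `C¹` families, `I` a set in which every point is an accumulation point is not needed: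
these are rules for `HasDerivWithinAt`. -/
def Goal_C9 : Prop :=
  ∀ I : Set ℝ,
  (∀ c c' : ℝ → ℝ, ContinuousOn c I → ContinuousOn c' I → (∀ t ∈ I, HasDerivWithinAt c (c' t) I t) →
    SmFam1 I (fun t _ => c t) (fun t _ => c' t)) ∧
  (∀ f f' h h', SmFam1 I f f' → SmFam1 I h h' →
    SmFam1 I (fun t x => f t x + h t x) (fun t x => f' t x + h' t x)) ∧
  (∀ f f' h h', SmFam1 I f f' → SmFam1 I h h' →
    SmFam1 I (fun t x => f t x - h t x) (fun t x => f' t x - h' t x)) ∧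
  (∀ f f' h h', SmFam1 I f f' → SmFam1 I h h' →
    SmFam1 I (fun t x => f t x * h t x) (fun t x => f' t x * h t x + f t x * h' t x)) ∧
  (∀ f f', SmFam1 I f f' → SmFam1 I (fun t x => - f t x) (fun t x => - f' t x)) ∧
  (∀ f f' i, SmFam1 I f f' → SmFam1 I (fun t => E i (f t)) (fun t => E i (f' t))) ∧
  (∀ (f f' : ℝ → HH → ℝ) (F F' : ℝ → ℝ) (U : Set ℝ), IsOpen U → ContDiffOn ℝ oo F U →
    (∀ y ∈ U, HasDerivAt F (F' y) y) → SmFam1 I f f' →
    (∀ t ∈ I, ∀ x, x ≠ 0 → f t x ∈ U) → SmFam1 I (fun t x => F (f t x)) (fun t x => F' (f t x) * f' t x)) ∧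
  (∀ (ι : Type) (s : Finset ι) (f f' : ι → ℝ → HH → ℝ), (∀ a ∈ s, SmFam1 I (f a) (f' a)) →
    SmFam1 I (fun t x => ∑ a ∈ s, f a t x) (fun t x => ∑ a ∈ s, f' a t x))

/-- C10 (0.8 h, C6, C8, C9).  The geometric quantities of a smooth family of metrics are smooth families, and `C¹` in
time if the metric is (the time derivatives `a'` are whatever the rules give). -/
def Goal_C10 : Prop :=
  ∀ (I : Set ℝ) (g : ℝ → MF), (∀ t ∈ I, IsMetric (g t)) →
    ((∀ i j, SmFam I (fun t x => g t x i j)) →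
      SmFam I (fun t x => (g t x).det) ∧ (∀ i j, SmFam I (fun t x => (g t x)⁻¹ i j)) ∧
      (∀ i j k, SmFam I (fun t => Gam (g t) i j k)) ∧ (∀ i j k l, SmFam I (fun t => Rup (g t) i j k l)) ∧
      (∀ i j k l, SmFam I (fun t => Rm (g t) i j k l)) ∧ (∀ i j, SmFam I (fun t => Ric (g t) i j)) ∧
      SmFam I (fun t => Scal (g t))) ∧
    ((∀ i j, ∃ h, SmFam1 I (fun t x => g t x i j) h) →
      (∃ a', SmFam1 I (fun t x => (g t x).det) a') ∧ (∀ i j, ∃ a', SmFam1 I (fun t x => (g t x)⁻¹ i j) a') ∧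
      (∀ i j k, ∃ a', SmFam1 I (fun t => Gam (g t) i j k) a') ∧
      (∀ i j k l, ∃ a', SmFam1 I (fun t => Rup (g t) i j k l) a') ∧
      (∀ i j k l, ∃ a', SmFam1 I (fun t => Rm (g t) i j k l) a') ∧
      (∀ i j, ∃ a', SmFam1 I (fun t => Ric (g t) i j) a') ∧
      (∃ a', SmFam1 I (fun t => Scal (g t)) a'))

/-- C11 (1.2 h).  Recognising smooth functions: if `F []`, `F [i]`, … are continuous `0`-homogeneous functions and
`F (i :: w)` is the derivative of `F w` along `x exp(s e_i)`, then `F []` is smooth and `F w` are its word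
derivatives.  (A function with continuous derivatives along the four linearly independent vector fields
`x`, `x e_1`, `x e_2`, `x e_3` is `C¹` on `{0}ᶜ`: mean value theorem along the four flows, or
`hasStrictFDerivAt`-type lemma; then induction.) -/
def Goal_C11 : Prop :=
  ∀ F : List (Fin 3) → HH → ℝ, (∀ w, Hom0 (F w)) → (∀ w, ContinuousOn (F w) {0}ᶜ) →
    (∀ w i x, x ≠ 0 → HasDerivAt (fun s : ℝ => F w (x * NormedSpace.exp (s • qe i))) (F (i :: w) x) 0) →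
    Sm (F []) ∧ ∀ w x, x ≠ 0 → Ew w (F []) x = F w x

/-- C12 (1 h).  Time-dependent maximum principle on `S³ × [a,b]`, no geometry.  If a `C¹` family `u` satisfies, at
every point `(t,x)`, `t > a`, where `u t` has a spatial maximum with value `> K`, `∂_t u ≤ 0`, and `u a ≤ K`, then
`u ≤ K`.  (Apply to `u - δ (t - a)`: at the first maximum over `S³ × [a,b']` with value `> K` one has
`∂_t u ≥ δ`.) -/
def Goal_C12 : Prop :=
  ∀ (a b K : ℝ) (u u' : ℝ → HH → ℝ), a ≤ b → SmFam1 (Set.Icc a b) u u' → (∀ x, x ≠ 0 → u a x ≤ K) →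
    (∀ t x, a < t → t ≤ b → x ≠ 0 → K < u t x → (∀ y, y ≠ 0 → u t y ≤ u t x) → u' t x ≤ 0) →
    ∀ t x, t ∈ Set.Icc a b → x ≠ 0 → u t x ≤ K

end Pool.Agent.Helper47.RF
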