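import Mathlib

/-!
# Project RF (MP_c98eff_gt, n = 3): core definitions

`S³` = unit quaternions.  A function on `S³` is a `0`-homogeneous function on `ℍ[ℝ] \ {0}`.
`E i f x = fderiv ℝ f x (x * qe i)`, `[E i, E j] = 2 ∑ eps i j k E k`.
A metric is the matrix `g x i j = g(E_i, E_j)(x)`; the round metric is the identity matrix.
Values at the quaternion `0` are irrelevant (but `E i f 0 = 0` always, so the derivation identities hold at `0`
too); `IsMetric` asks positive definiteness also at `0`, which costs nothing and makes matrix identities valid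
everywhere.
-/

namespace Pool.Agent.Helper47.RF

open Finset

/-- quaternions -/
abbrev HH := Quaternion ℝ

noncomputable instance : MeasurableSpace HH := borel _

instance : BorelSpace HH := ⟨rfl⟩

/-- the imaginary units -/
def qe : Fin 3 → HH := ![⟨0, 1, 0, 0⟩, ⟨0, 0, 1, 0⟩, ⟨0, 0, 0, 1⟩]

/-- Levi-Civita symbol -/
noncomputable def eps (i j k : Fin 3) : ℝ :=
  (((j : ℕ) : ℝ) - ((i : ℕ) : ℝ)) * (((k : ℕ) : ℝ) - ((j : ℕ) : ℝ)) *
    (((k : ℕ) : ℝ) - ((i : ℕ) : ℝ)) / 2

/-- left-invariant vector fields -/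
noncomputable def E (i : Fin 3) (f : HH → ℝ) (x : HH) : ℝ := fderiv ℝ f x (x * qe i)

/-- iterated derivative along a word: `Ew [i, j] f = E i (E j f)` -/
noncomputable def Ew : List (Fin 3) → (HH → ℝ) → HH → ℝ
  | [], f => f
  | i :: w, f => E i (Ew w f)

/-- `0`-homogeneous -/
def Hom0 (f : HH → ℝ) : Prop := ∀ (r : ℝ) (x : HH), 0 < r → f (r • x) = f x

/-- smooth function on `S³` -/
structure Sm (f : HH → ℝ) : Prop where
  cd : ContDiffOn ℝ ((⊤ : ℕ∞) : WithTop ℕ∞) f {0}ᶜ
  hom : Hom0 f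

/-- fields of 3x3 matrices -/
abbrev MF := HH → Matrix (Fin 3) (Fin 3) ℝ

/-- smooth Riemannian metric on `S³` -/
structure IsMetric (g : MF) : Prop where
  sm : ∀ i j, Sm (fun x => g x i j)
  pos : ∀ x, (g x).PosDef

/-- lowered Christoffel symbols `g(∇_{E_i} E_j, E_k)` (Koszul) -/
noncomputable def GamL (g : MF) (i j k : Fin 3) (x : HH) : ℝ :=
  (E i (fun y => g y j k) x + E j (fun y => g y i k) x - E k (fun y => g y i j) x
    + 2 * ∑ l, (eps i j l * g x l k - eps i k l * g x l j - eps j k l * g x l i)) / 2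

/-- Christoffel symbols: `∇_{E_i} E_j = ∑ k, Gam g i j k E_k` -/
noncomputable def Gam (g : MF) (i j k : Fin 3) (x : HH) : ℝ :=
  ∑ m, (g x)⁻¹ k m * GamL g i j m x

/-- curvature `R(E_i,E_j)E_k = ∇_i∇_j E_k - ∇_j∇_i E_k - ∇_{[E_i,E_j]} E_k = ∑ l, Rup g i j k l E_l` -/
noncomputable def Rup (g : MF) (i j k l : Fin 3) (x : HH) : ℝ :=
  E i (Gam g j k l) x - E j (Gam g i k l) x
    + ∑ m, (Gam g j k m x * Gam g i m l x - Gam g i k m x * Gam g j m l x)
    - 2 * ∑ m, eps i j m * Gam g m k l x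

/-- `Rm g i j k l = g(R(E_i,E_j)E_k, E_l)` -/
noncomputable def Rm (g : MF) (i j k l : Fin 3) (x : HH) : ℝ := ∑ m, Rup g i j k m x * g x m l

/-- Ricci tensor `Ric(E_j,E_k) = tr (X ↦ R(X,E_j)E_k)` -/
noncomputable def Ric (g : MF) (j k : Fin 3) (x : HH) : ℝ := ∑ i, Rup g i j k i x

/-- scalar curvature -/
noncomputable def Scal (g : MF) (x : HH) : ℝ := ∑ j, ∑ k, (g x)⁻¹ j k * Ric g j k x

/-- inner product of two vectors given in the frame -/
def ip (g : MF) (x : HH) (u v : Fin 3 → ℝ) : ℝ := ∑ i, ∑ j, g x i j * u i * v j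

/-- `g(R(u,v)v, u)` -/
noncomputable def curv (g : MF) (x : HH) (u v : Fin 3 → ℝ) : ℝ :=
  ∑ i, ∑ j, ∑ k, ∑ l, Rm g i j k l x * u i * v j * v k * u l

/-- area form squared -/
def ar (g : MF) (x : HH) (u v : Fin 3 → ℝ) : ℝ :=
  ip g x u u * ip g x v v - ip g x u v ^ 2

/-- sectional curvature of the plane spanned by `u, v` (linearly independent) -/
noncomputable def sec (g : MF) (x : HH) (u v : Fin 3 → ℝ) : ℝ := curv g x u v / ar g x u v

/-- pointwise pinching: all sectional curvatures at `x` are positive and any two have ratio `> δ` -/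
def PinchedAt (δ : ℝ) (g : MF) (x : HH) : Prop :=
  ∀ u v u' v' : Fin 3 → ℝ, LinearIndependent ℝ ![u, v] → LinearIndependent ℝ ![u', v'] →
    0 < sec g x u v ∧ δ * sec g x u' v' < sec g x u v

/-- frame components of a tangent vector `w = x * (∑ vᵢ qeᵢ)` at the unit quaternion `x` -/
noncomputable def fr (x w : HH) : Fin 3 → ℝ := ![(star x * w).imI, (star x * w).imJ, (star x * w).imK]

/-- speed of a curve -/
noncomputable def speed (g : MF) (c : ℝ → HH) (t : ℝ) : ℝ :=
  Real.sqrt (ip g (c t) (fr (c t) (deriv c t)) (fr (c t) (deriv c t)))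

/-- length of a curve `[0,1] → S³` -/
noncomputable def glen (g : MF) (c : ℝ → HH) : ℝ := ∫ t in (0:ℝ)..1, speed g c t

/-- Lipschitz curves in `S³` from `x` to `y` -/
def Joins (c : ℝ → HH) (x y : HH) : Prop :=
  (∃ K, LipschitzWith K c) ∧ (∀ t, ‖c t‖ = 1) ∧ c 0 = x ∧ c 1 = y

/-- Riemannian distance of two unit quaternions -/
noncomputable def gdist (g : MF) (x y : HH) : ℝ := sInf {r | ∃ c, Joins c x y ∧ r = glen g c}

/-- diameter -/
noncomputable def gdiam (g : MF) : ℝ := sSup {r | ∃ x y : HH, ‖x‖ = 1 ∧ ‖y‖ = 1 ∧ r = gdist g x y}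

/-- Riemannian volume: `4 ∫_{|x| ≤ 1} √det g = ∫_{S³} √det g dσ` (`g` is `0`-homogeneous) -/
noncomputable def gvol (g : MF) : ℝ := 4 * ∫ x in Metric.ball (0 : HH) 1, Real.sqrt (g x).det

/-- mean-free integral of a function on `S³` (total mass `2π²`) -/
noncomputable def integ (f : HH → ℝ) : ℝ := 4 * ∫ x in Metric.ball (0 : HH) 1, f x

/-- a smooth family `f t x`, `t ∈ I`: every word derivative is jointly continuous on `I × (ℍ \ 0)` -/
structure SmFam (I : Set ℝ) (f : ℝ → HH → ℝ) : Prop where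
  sm : ∀ t ∈ I, Sm (f t)
  cont : ∀ w, ContinuousOn (fun p : ℝ × HH => Ew w (f p.1) p.2) (I ×ˢ {0}ᶜ)

/-- smooth family that is `C¹` in time, with time derivative the smooth family `f'`, compatible with all word
derivatives (one-sided at end points of `I`) -/
structure SmFam1 (I : Set ℝ) (f f' : ℝ → HH → ℝ) : Prop where
  fam : SmFam I f
  fam' : SmFam I f'
  der : ∀ w, ∀ x ≠ 0, ∀ t ∈ I, HasDerivWithinAt (fun s => Ew w (f s) x) (Ew w (f' t) x) I t

/-- a smooth Ricci flow on the time interval `I` -/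
structure RicciFlow (I : Set ℝ) (g : ℝ → MF) : Prop where
  met : ∀ t ∈ I, IsMetric (g t)
  flow : ∀ i j, SmFam1 I (fun t x => g t x i j) (fun t x => - 2 * Ric (g t) i j x)

end Pool.Agent.Helper47.RF
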